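import Mathlib

/-!
# Fibre type extremal rays, decompositions of the fundamental divisor and Mukai's conjecture

`Fano` collects the lattice `Pic X`, the cohomology numbers and the cones of a Fano manifold `X`. Three
published theorems are among the fields: Snapper's theorem (`snapper`), the vanishing theorem of Kodaira
(`kodaira`) and its relative form for the extremal contractions of fibre type (`rel`); the other fields are
elementary. The bound is proved for all such data.
-/

set_option autoImplicit false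

open Finset MvPolynomial

namespace Pool.Agent.Results.MP_7dbbd8_ag.HilbertPolynomial

/-- Numerical and cohomological data of a Fano manifold `X`. -/
structure Fano where
  /-- The dimension. -/
  n : ℕ
  /-- The Picard number; `Pic X` is `Fin ρ → ℤ`. -/
  ρ : ℕ
  /-- `h i D` is the dimension of `H^i(X, O(D))`. -/
  h : ℕ → (Fin ρ → ℤ) → ℕ
  /-- The class `-K_X`. -/
  antiK : Fin ρ → ℤ
  /-- The classes of the ample divisors. -/
  Ample : Set (Fin ρ → ℤ)
  /-- The classes of the nef divisors. -/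
  Nef : Set (Fin ρ → ℤ)
  antiK_ample : antiK ∈ Ample
  ample_add_nef : ∀ A ∈ Ample, ∀ D ∈ Nef, A + D ∈ Ample
  ample_of_smul : ∀ (r : ℕ) (A : Fin ρ → ℤ), r • A ∈ Ample → A ∈ Ample
  nef_zero : 0 ∈ Nef
  nef_add : ∀ D ∈ Nef, ∀ E ∈ Nef, D + E ∈ Nef
  /-- The degree `D · A^{n-1}` for a fixed ample class `A`. -/
  deg : (Fin ρ → ℤ) →+ ℤ
  deg_eff : ∀ D, h 0 D ≠ 0 → D ≠ 0 → 0 < deg D
  deg_nef : ∀ D ∈ Nef, D ≠ 0 → 0 < deg D
  h_zero : h 0 0 = 1
  /-- The theorem of Snapper: the Euler characteristic is a polynomial of degree at most `n`. -/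
  snapper : ∃ P : MvPolynomial (Fin ρ) ℚ, P.totalDegree ≤ n ∧
    ∀ D : Fin ρ → ℤ, eval (fun t => (D t : ℚ)) P = ∑ i ∈ range (n + 1), (-1) ^ i * (h i D : ℚ)
  /-- The vanishing theorem of Kodaira. -/
  kodaira : ∀ D, D + antiK ∈ Ample → ∀ i, 1 ≤ i → h i D = 0
  /-- The extremal rays of fibre type. -/
  Ray : Type
  /-- `c R` is the surjective functional on `Pic X` which is a positive multiple of the intersection
  number with the curves of the ray `R`. -/
  c : Ray → (Fin ρ → ℤ) →+ ℤ
  c_surj : ∀ R, Function.Surjective (c R)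
  c_inj : Function.Injective c
  c_pos : ∀ R, 0 < c R antiK
  /-- Relative vanishing: if `D` is negative and `D - K` is positive on a ray of fibre type then all
  direct images of `O(D)` under the contraction of the ray are zero. -/
  rel : ∀ R D, c R D < 0 → 0 < c R (D + antiK) → ∀ i, h i D = 0

/-- A polynomial which vanishes on a grid with the exception of one point (Alon and Füredi). -/
theorem grid {σ : Type} [Fintype σ] (Q : MvPolynomial σ ℚ) (S : σ → Finset ℚ)
    (x₀ : σ → ℚ) (hx₀ : ∀ i, x₀ i ∉ S i)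
    (hz : ∀ x : σ → ℚ, (∀ i, x i ∈ S i ∨ x i = x₀ i) → x ≠ x₀ → eval x Q = 0)
    (h0 : eval x₀ Q ≠ 0) : ∑ i, (S i).card ≤ Q.totalDegree := by
  classical
  by_contra hlt
  push Not at hlt
  let G : MvPolynomial σ ℚ := ∏ i, ∏ s ∈ S i, (X i - C s)
  let τ : σ →₀ ℕ := ∑ i, Finsupp.single i (S i).card
  have hτi : ∀ i, τ i = (S i).card := fun i => by
    simp only [τ, Finsupp.finsetSum_apply, Finsupp.single_apply]
    simp
  have hτ : τ.degree = ∑ i, (S i).card := by
    simp only [τ, map_sum, Finsupp.degree_single]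
  have hG0 : eval x₀ G ≠ 0 := by
    simp only [G, map_prod, map_sub, eval_X, eval_C]
    refine Finset.prod_ne_zero_iff.2 fun i _ => Finset.prod_ne_zero_iff.2 fun s hs => ?_
    intro h
    exact hx₀ i (by rw [sub_eq_zero.1 h]; exact hs)
  let _ : LinearOrder σ := WellOrderingRel.isWellOrder.linearOrder
  have hm1 : ∀ i, ∀ s ∈ S i, MonomialOrder.degLex.Monic (X i - C s : MvPolynomial σ ℚ) :=
    fun i s _ => MonomialOrder.degLex.monic_X_sub_C i s
  have hm2 : ∀ i, MonomialOrder.degLex.Monic (∏ s ∈ S i, (X i - C s) : MvPolynomial σ ℚ) :=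
    fun i => MonomialOrder.Monic.prod (hm1 i)
  have hmonic : MonomialOrder.degLex.Monic G := MonomialOrder.Monic.prod fun i _ => hm2 i
  have hreg : ∀ p : MvPolynomial σ ℚ, MonomialOrder.degLex.Monic p →
      IsRegular (MonomialOrder.degLex.leadingCoeff p) := fun p hp => by
    rw [hp.leadingCoeff_eq_one]; exact isRegular_one
  have hdegG : MonomialOrder.degLex.degree G = τ := by
    simp only [G]
    rw [MonomialOrder.degree_prod_of_regular fun i _ => hreg _ (hm2 i)]
    refine Finset.sum_congr rfl fun i _ => ?_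
    rw [MonomialOrder.degree_prod_of_regular fun s hs => hreg _ (hm1 i s hs)]
    rw [Finset.sum_congr rfl fun s _ => MonomialOrder.degLex.degree_X_sub_C i s]
    rw [Finset.sum_const, Finsupp.smul_single, smul_eq_mul, mul_one]
  have hGτ : G.coeff τ = 1 := by
    rw [← hdegG]; exact hmonic
  have hGd : G.totalDegree = τ.degree := by
    rw [← hdegG, degree_degLexDegree]
  let f := Q - C (eval x₀ Q / eval x₀ G) * G
  have hα : eval x₀ Q / eval x₀ G ≠ 0 := div_ne_zero h0 hG0
  have hfτ : f.coeff τ ≠ 0 := by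
    simp only [f, coeff_sub, coeff_C_mul, hGτ, mul_one]
    rw [coeff_eq_zero_of_totalDegree_lt (by
      show Q.totalDegree < τ.degree
      rw [hτ]; exact hlt), zero_sub]
    exact neg_ne_zero.2 hα
  have hfd : f.totalDegree = τ.degree := by
    refine le_antisymm ?_ ?_
    · refine (totalDegree_sub _ _).trans (max_le ?_ ?_)
      · rw [hτ]; exact hlt.le
      · refine (totalDegree_mul _ _).trans ?_
        rw [totalDegree_C, zero_add, hGd]
    · exact le_totalDegree (mem_support_iff.2 hfτ)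
  obtain ⟨x, hx, hfx⟩ := combinatorial_nullstellensatz_exists_eval_nonzero f τ hfτ hfd
    (fun i => insert (x₀ i) (S i)) (fun i => by
      rw [hτi, Finset.card_insert_of_notMem (hx₀ i)]; exact Nat.lt_succ_self _)
  apply hfx
  simp only [f, map_sub, map_mul, eval_C]
  by_cases hxx : x = x₀
  · rw [hxx, div_mul_cancel₀ _ hG0, sub_self]
  · rw [hz x (fun i => ((Finset.mem_insert.1 (hx i)).symm)) hxx]
    obtain ⟨i, hi⟩ := Function.ne_iff.1 hxx
    have hxi : x i ∈ S i := (Finset.mem_insert.1 (hx i)).resolve_left hi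
    have : eval x G = 0 := by
      simp only [G, map_prod, map_sub, eval_X, eval_C]
      exact Finset.prod_eq_zero (Finset.mem_univ i) (Finset.prod_eq_zero hxi (sub_self _))
    rw [this, mul_zero, sub_zero]

theorem degree_subst {σ τ : Type} (g : σ → MvPolynomial τ ℚ) (hg : ∀ t, (g t).totalDegree ≤ 1)
    (P : MvPolynomial σ ℚ) : (aeval g P).totalDegree ≤ P.totalDegree := by
  classical
  rw [aeval_def, eval₂_eq]
  refine totalDegree_finsetSum_le fun e he => ?_
  refine (totalDegree_mul _ _).trans ?_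
  have h1 : (algebraMap ℚ (MvPolynomial τ ℚ) (P.coeff e)).totalDegree = 0 := totalDegree_C _
  rw [h1, zero_add]
  refine (totalDegree_finsetProd _ _).trans ?_
  refine le_trans ?_ (le_totalDegree he)
  refine Finset.sum_le_sum fun t _ => ?_
  exact (totalDegree_pow _ _).trans (by
    calc e t * (g t).totalDegree ≤ e t * 1 := Nat.mul_le_mul_left _ (hg t)
      _ = e t := mul_one _)

theorem eval_subst {σ τ : Type} (g : σ → MvPolynomial τ ℚ) (P : MvPolynomial σ ℚ) (x : τ → ℚ) :
    eval x (aeval g P) = eval (fun t => eval x (g t)) P := by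
  have h : (eval x).comp (aeval g : MvPolynomial σ ℚ →ₐ[ℚ] MvPolynomial τ ℚ).toRingHom =
      eval (fun t => eval x (g t)) := by
    apply MvPolynomial.ringHom_ext
    · intro q
      simp
    · intro i
      simp
  exact DFunLike.congr_fun h P

/-- The linear extension of an additive map to rational vectors. -/
def ext {ρ : ℕ} (c : (Fin ρ → ℤ) →+ ℤ) : Module.Dual ℚ (Fin ρ → ℚ) where
  toFun y := ∑ t, y t * (c (Pi.single t 1) : ℚ)
  map_add' y z := by simp [add_mul, Finset.sum_add_distrib]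
  map_smul' a y := by simp [Finset.mul_sum, mul_assoc]

theorem ext_int {ρ : ℕ} (c : (Fin ρ → ℤ) →+ ℤ) (D : Fin ρ → ℤ) :
    ext c (fun t => (D t : ℚ)) = (c D : ℚ) := by
  have h : c D = ∑ t, D t * c (Pi.single t 1) := by
    conv_lhs => rw [← Finset.univ_sum_single D]
    rw [map_sum]
    refine Finset.sum_congr rfl fun t _ => ?_
    have : (Pi.single t (D t) : Fin ρ → ℤ) = D t • Pi.single t 1 := by
      rw [← Pi.single_smul, smul_eq_mul, mul_one]
    rw [this, map_zsmul, smul_eq_mul]
  show ∑ t, (D t : ℚ) * (c (Pi.single t 1) : ℚ) = _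
  rw [h]
  push_cast
  rfl

/-- A polynomial which vanishes on the integral points of the hyperplane `c = a` vanishes on the
hyperplane. -/
theorem dense {ρ : ℕ} (P : MvPolynomial (Fin ρ) ℚ) (c : (Fin ρ → ℤ) →+ ℤ)
    (hc : Function.Surjective c) (a : ℤ) (h : ∀ D, c D = a → eval (fun t => (D t : ℚ)) P = 0)
    (y : Fin ρ → ℚ) (hy : ext c y = a) : eval y P = 0 := by
  obtain ⟨x₀, hx₀⟩ := hc a
  let N : ℕ := ∏ t, (y t).den
  have hN : N ≠ 0 := Finset.prod_ne_zero_iff.2 fun t _ => (y t).den_ne_zero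
  have hint : ∀ t, ∃ w : ℤ, (w : ℚ) = N * y t := fun t => by
    have hd : (y t).den ∣ N := Finset.dvd_prod_of_mem _ (Finset.mem_univ t)
    obtain ⟨e, he⟩ := hd
    refine ⟨e * (y t).num, ?_⟩
    have h1 := Rat.mul_den_eq_num (y t)
    push_cast
    rw [he, ← h1]
    push_cast
    ring
  choose w hw using hint
  let u : Fin ρ → ℤ := fun t => w t - N * x₀ t
  have hcu : c u = 0 := by
    have h1 : ext c (fun t => (u t : ℚ)) = 0 := by
      have : (fun t => (u t : ℚ)) = (N : ℚ) • (y - fun t => (x₀ t : ℚ)) := by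
        funext t
        simp only [u, Int.cast_sub, Int.cast_mul, hw, Pi.smul_apply, Pi.sub_apply, smul_eq_mul,
          Int.cast_natCast]
        ring
      rw [this, map_smul, map_sub, ext_int, hy, hx₀, sub_self, smul_zero]
    rw [ext_int] at h1
    exact_mod_cast h1
  let g : Fin ρ → Polynomial ℚ := fun t => Polynomial.C (x₀ t : ℚ) + Polynomial.C (u t : ℚ) * Polynomial.X
  let p : Polynomial ℚ := aeval g P
  have hp : ∀ s : ℚ, Polynomial.eval s p = eval (fun t => (x₀ t : ℚ) + (u t : ℚ) * s) P := by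
    intro s
    have h : (Polynomial.evalRingHom s).comp (aeval g : MvPolynomial (Fin ρ) ℚ →ₐ[ℚ] Polynomial ℚ).toRingHom =
        eval (fun t => (x₀ t : ℚ) + (u t : ℚ) * s) := by
      apply MvPolynomial.ringHom_ext
      · intro q
        simp
      · intro i
        simp [g]
    exact DFunLike.congr_fun h P
  have hp0 : p = 0 := by
    refine Polynomial.eq_zero_of_infinite_isRoot p ?_
    refine Set.Infinite.mono ?_ (Set.infinite_range_of_injective (Int.cast_injective (α := ℚ)))
    rintro _ ⟨s, rfl⟩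
    show Polynomial.eval (s : ℚ) p = 0
    rw [hp]
    have : (fun t => (x₀ t : ℚ) + (u t : ℚ) * (s : ℚ)) = fun t => (((x₀ + s • u) t : ℤ) : ℚ) := by
      funext t
      simp only [Pi.add_apply, Pi.smul_apply, smul_eq_mul]
      push_cast
      ring
    rw [this]
    apply h
    rw [map_add, map_zsmul, hcu, smul_zero, add_zero, hx₀]
  have h1 := hp (1 / N)
  rw [hp0, Polynomial.eval_zero] at h1
  have : (fun t => (x₀ t : ℚ) + (u t : ℚ) * (1 / N)) = y := by
    funext t
    have hN' : (N : ℚ) ≠ 0 := by exact_mod_cast hN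
    simp only [u, Int.cast_sub, Int.cast_mul, hw, Int.cast_natCast]
    field_simp
    ring
  rw [this] at h1
  exact h1.symm

namespace Fano

variable (X : Fano)

theorem c_nonprop {R R' : X.Ray} (h : R ≠ R') (a b : ℤ) (ha : 0 < a) (hb : 0 < b) :
    ∃ D, a * X.c R D ≠ b * X.c R' D := by
  by_contra hcon
  push Not at hcon
  refine h (X.c_inj ?_)
  obtain ⟨D, hD⟩ := X.c_surj R 1
  obtain ⟨E, hE⟩ := X.c_surj R' 1
  have h1 := hcon D
  have h2 := hcon E
  rw [hD, mul_one] at h1
  rw [hE, mul_one] at h2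
  have h3 : b ∣ a := ⟨_, h1⟩
  have h4 : a ∣ b := ⟨_, h2.symm⟩
  have h5 : a = b := le_antisymm (Int.le_of_dvd hb h4) (Int.le_of_dvd ha h3)
  refine AddMonoidHom.ext fun D => mul_left_cancel₀ ha.ne' ?_
  rw [hcon, h5]

/-- The Euler characteristic. -/
theorem chi_zero_of (P : MvPolynomial (Fin X.ρ) ℚ)
    (hP : ∀ D : Fin X.ρ → ℤ, eval (fun t => (D t : ℚ)) P =
      ∑ i ∈ range (X.n + 1), (-1) ^ i * (X.h i D : ℚ)) (D : Fin X.ρ → ℤ) (h : ∀ i, X.h i D = 0) :
    eval (fun t => (D t : ℚ)) P = 0 := by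
  rw [hP]
  exact Finset.sum_eq_zero fun i _ => by rw [h i, Nat.cast_zero, mul_zero]

/-- The main bound. -/
theorem bound (S : Finset X.Ray) {k : ℕ} (D : Fin k → Fin X.ρ → ℤ) (m : Fin k → ℕ)
    (hdeg : ∀ j, 0 < X.deg (D j)) (horth : ∀ R ∈ S, ∀ j, X.c R (D j) = 0)
    (hamp : ∀ t : Fin k → ℕ, (∀ j, t j ≤ m j) → X.antiK - ∑ j, t j • D j ∈ X.Ample) :
    ∑ R ∈ S, (X.c R X.antiK - 1) + ∑ j, (m j : ℤ) ≤ X.n := by
  classical
  obtain ⟨P, hPd, hP⟩ := X.snapper
  -- the direction `v`
  let I : Type := {x : X.Ray × X.Ray × ℕ × ℕ // x.1 ∈ S ∧ x.2.1 ∈ S ∧ x.1 ≠ x.2.1 ∧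
    x.2.2.1 < (X.c x.1 X.antiK).toNat ∧ x.2.2.2 < (X.c x.2.1 X.antiK).toNat ∧ 0 < x.2.2.1 ∧
    0 < x.2.2.2}
  have hI : Finite I := by
    let L : ℕ := ∑ R ∈ S, (X.c R X.antiK).toNat
    have hL : ∀ R ∈ S, (X.c R X.antiK).toNat ≤ L := fun R hR =>
      Finset.single_le_sum (f := fun R => (X.c R X.antiK).toNat) (fun _ _ => Nat.zero_le _) hR
    refine Finite.of_injective (β := S × S × Fin L × Fin L)
      (fun x => ⟨⟨x.1.1, x.2.1⟩, ⟨x.1.2.1, x.2.2.1⟩, ⟨x.1.2.2.1, lt_of_lt_of_le x.2.2.2.2.1 (hL _ x.2.1)⟩,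
        ⟨x.1.2.2.2, lt_of_lt_of_le x.2.2.2.2.2.1 (hL _ x.2.2.1)⟩⟩) ?_
    intro x y hxy
    simp only [Prod.mk.injEq, Subtype.mk.injEq, Fin.mk.injEq] at hxy
    apply Subtype.ext
    obtain ⟨h1, h2, h3, h4⟩ := hxy
    exact Prod.ext h1 (Prod.ext h2 (Prod.ext h3 h4))
  obtain ⟨v, hv⟩ := Module.Dual.exists_forall_ne_zero_of_forall_exists
    (K := ℚ) (M := Fin X.ρ → ℚ) (ι := S ⊕ I)
    (fun x => Sum.elim (fun R => ext (X.c R.1))
      (fun x => (x.1.2.2.1 : ℚ) • ext (X.c x.1.2.1) - (x.1.2.2.2 : ℚ) • ext (X.c x.1.1)) x)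
    (by
      rintro (R | x)
      · refine ⟨fun t => (X.antiK t : ℚ), ?_⟩
        show ext (X.c R.1) _ ≠ 0
        rw [ext_int]
        exact_mod_cast (X.c_pos R.1).ne'
      · obtain ⟨D, hD⟩ := X.c_nonprop (Ne.symm x.2.2.2.1) (x.1.2.2.1 : ℤ) (x.1.2.2.2 : ℤ)
          (by exact_mod_cast x.2.2.2.2.2.2.1) (by exact_mod_cast x.2.2.2.2.2.2.2)
        refine ⟨fun t => (D t : ℚ), ?_⟩
        show (x.1.2.2.1 : ℚ) * ext (X.c x.1.2.1) _ - (x.1.2.2.2 : ℚ) * ext (X.c x.1.1) _ ≠ 0
        rw [ext_int, ext_int, sub_ne_zero]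
        exact_mod_cast hD)
  have hv1 : ∀ R ∈ S, ext (X.c R) v ≠ 0 := fun R hR => hv (Sum.inl ⟨R, hR⟩)
  -- the zeros in the direction `v`
  let T : Finset (Σ _ : X.Ray, ℕ) := S.sigma fun R => (range ((X.c R X.antiK).toNat - 1))
  let z : (Σ _ : X.Ray, ℕ) → ℚ := fun x => -((x.2 : ℚ) + 1) / ext (X.c x.1) v
  have hzinj : Set.InjOn z T := by
    rintro ⟨R, a⟩ hx ⟨R', a'⟩ hy hxy
    have hR := (Finset.mem_sigma.1 hx).1
    have hR' := (Finset.mem_sigma.1 hy).1
    have ha := Finset.mem_range.1 (Finset.mem_sigma.1 hx).2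
    have ha' := Finset.mem_range.1 (Finset.mem_sigma.1 hy).2
    simp only at hR hR' ha ha'
    simp only [z] at hxy
    rw [div_eq_div_iff (hv1 R hR) (hv1 R' hR')] at hxy
    by_cases hRR : R = R'
    · subst hRR
      have h1 := mul_right_cancel₀ (hv1 R hR) hxy
      have h2 : (a : ℚ) = a' := by linarith
      have h3 : a = a' := by exact_mod_cast h2
      rw [h3]
    · exfalso
      refine hv (Sum.inr ⟨⟨R, R', a + 1, a' + 1⟩, hR, hR', hRR, ?_, ?_, Nat.succ_pos _,
        Nat.succ_pos _⟩) ?_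
      · show a + 1 < (X.c R X.antiK).toNat
        omega
      · show a' + 1 < (X.c R' X.antiK).toNat
        omega
      · show ((a + 1 : ℕ) : ℚ) * ext (X.c R') v - ((a' + 1 : ℕ) : ℚ) * ext (X.c R) v = 0
        push_cast
        linarith
  let Z : Finset ℚ := T.image z
  have hZcard : (Z.card : ℤ) = ∑ R ∈ S, (X.c R X.antiK - 1) := by
    rw [Finset.card_image_of_injOn hzinj, Finset.card_sigma, Nat.cast_sum]
    refine Finset.sum_congr rfl fun R _ => ?_
    rw [Finset.card_range]
    have := X.c_pos R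
    omega
  -- the polynomial
  let g : Fin X.ρ → MvPolynomial (Option (Fin k)) ℚ := fun t =>
    C (v t) * MvPolynomial.X none - ∑ j, C (D j t : ℚ) * MvPolynomial.X (some j)
  have hg : ∀ t, (g t).totalDegree ≤ 1 := by
    intro t
    refine (totalDegree_sub _ _).trans (max_le ?_ ?_)
    · refine (totalDegree_mul _ _).trans ?_
      rw [totalDegree_C, zero_add, totalDegree_X]
    · refine totalDegree_finsetSum_le fun j _ => ?_
      refine (totalDegree_mul _ _).trans ?_
      rw [totalDegree_C, zero_add, totalDegree_X]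
  let Q : MvPolynomial (Option (Fin k)) ℚ := aeval g P
  have hQ : ∀ x : Option (Fin k) → ℚ, eval x Q =
      eval (fun t => v t * x none - ∑ j, (D j t : ℚ) * x (some j)) P := by
    intro x
    rw [show Q = aeval g P from rfl, eval_subst]
    simp [g]
  have hvan0 : eval (fun _ => (0 : ℚ)) P ≠ 0 := by
    have h1 := hP 0
    have h2 : ∀ i, 1 ≤ i → X.h i 0 = 0 := X.kodaira 0 (by rw [zero_add]; exact X.antiK_ample)
    rw [Finset.sum_eq_single 0 (fun i _ hi => by
      rw [h2 i (Nat.one_le_iff_ne_zero.2 hi), Nat.cast_zero, mul_zero]) fun h => by simp at h] at h1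
    rw [X.h_zero] at h1
    have h3 : (fun t => (((0 : Fin X.ρ → ℤ) t : ℤ) : ℚ)) = fun _ => 0 := by
      funext t; simp
    rw [h3] at h1
    rw [h1]
    norm_num
  have key := grid Q (fun o => Option.elim o Z fun j => (Finset.Icc 1 (m j)).image fun a : ℕ => (a : ℚ))
    (fun _ => 0) (by
      rintro (_ | j)
      · intro h0
        obtain ⟨x, hx, hx0⟩ := Finset.mem_image.1 h0
        have hR := (Finset.mem_sigma.1 hx).1
        have : -((x.2 : ℚ) + 1) ≠ 0 := by
          have : (0 : ℚ) < (x.2 : ℚ) + 1 := by positivity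
          linarith
        exact div_ne_zero this (hv1 _ hR) hx0
      · intro h0
        obtain ⟨a, ha, ha0⟩ := Finset.mem_image.1 h0
        have h1 := (Finset.mem_Icc.1 ha).1
        have h2 : (a : ℚ) = 0 := ha0
        have h3 : a = 0 := by exact_mod_cast h2
        omega)
    (by
      intro x hx hne
      rw [hQ]
      -- the natural numbers `t j`
      have ht : ∀ j, ∃ t : ℕ, t ≤ m j ∧ x (some j) = t := by
        intro j
        rcases hx (some j) with h1 | h1
        · obtain ⟨a, ha, ha0⟩ := Finset.mem_image.1 h1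
          exact ⟨a, (Finset.mem_Icc.1 ha).2, ha0.symm⟩
        · exact ⟨0, Nat.zero_le _, by rw [h1, Nat.cast_zero]⟩
      choose t htm htx using ht
      rcases hx none with h1 | h1
      · obtain ⟨⟨R, a⟩, hRa, hxz⟩ := Finset.mem_image.1 h1
        have hR := (Finset.mem_sigma.1 hRa).1
        have ha := Finset.mem_range.1 (Finset.mem_sigma.1 hRa).2
        simp only at hR ha
        refine dense P (X.c R) (X.c_surj R) (-((a : ℤ) + 1)) (fun E hE => ?_) _ ?_
        · refine X.chi_zero_of P hP E (X.rel R E ?_ ?_)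
          · rw [hE]; omega
          · rw [map_add, hE]
            have := X.c_pos R
            omega
        · have e1 : (fun s => v s * x none - ∑ j, (D j s : ℚ) * x (some j)) =
              x none • v - ∑ j, x (some j) • fun s => (D j s : ℚ) := by
            funext s
            simp only [Pi.sub_apply, Pi.smul_apply, smul_eq_mul, Finset.sum_apply]
            rw [mul_comm]
            congr 1
            exact Finset.sum_congr rfl fun j _ => mul_comm _ _
          rw [e1, map_sub, map_smul, map_sum]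
          have e2 : ∑ j, ext (X.c R) (x (some j) • fun s => (D j s : ℚ)) = 0 := by
            refine Finset.sum_eq_zero fun j _ => ?_
            rw [map_smul, ext_int, horth R hR j, Int.cast_zero, smul_zero]
          rw [e2, sub_zero, ← hxz, smul_eq_mul]
          simp only [z]
          rw [div_mul_cancel₀ _ (hv1 R hR)]
          push_cast
          ring
      · have htne : ∃ j, t j ≠ 0 := by
          by_contra hall
          push Not at hall
          refine hne (funext fun o => ?_)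
          rcases o with _ | j
          · exact h1
          · rw [htx j, hall j, Nat.cast_zero]
        obtain ⟨j₀, hj₀⟩ := htne
        let E : Fin X.ρ → ℤ := -∑ j, t j • D j
        have e1 : (fun s => v s * x none - ∑ j, (D j s : ℚ) * x (some j)) = fun s => (E s : ℚ) := by
          funext s
          rw [h1, mul_zero, zero_sub]
          simp only [E, Pi.neg_apply, Finset.sum_apply, Pi.smul_apply]
          simp only [nsmul_eq_mul]
          push_cast
          congr 1
          exact Finset.sum_congr rfl fun j _ => by rw [htx j, mul_comm]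
        rw [e1]
        have hdegE : X.deg E < 0 := by
          simp only [E, map_neg, map_sum, map_nsmul]
          simp only [nsmul_eq_mul]
          rw [neg_lt_zero]
          refine Finset.sum_pos' (fun j _ => mul_nonneg (Int.natCast_nonneg _) (hdeg j).le)
            ⟨j₀, Finset.mem_univ _, mul_pos (by exact_mod_cast Nat.pos_of_ne_zero hj₀) (hdeg j₀)⟩
        have hEA : E + X.antiK ∈ X.Ample := by
          rw [show E + X.antiK = X.antiK - ∑ j, t j • D j by simp only [E]; abel]
          exact hamp t htm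
        refine X.chi_zero_of P hP E fun i => ?_
        rcases Nat.eq_zero_or_pos i with rfl | hi
        · by_contra h0
          have hE0 : E ≠ 0 := fun h => by rw [h, map_zero] at hdegE; exact lt_irrefl _ hdegE
          exact absurd (X.deg_eff E h0 hE0) (not_lt.2 hdegE.le)
        · exact X.kodaira E hEA i hi)
    (by
      rw [hQ]
      simpa using hvan0)
  rw [Fintype.sum_option] at key
  have hcard : ∀ j : Fin k, (Finset.card ((Finset.Icc 1 (m j)).image fun a : ℕ => (a : ℚ))) = m j := by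
    intro j
    rw [Finset.card_image_of_injective _ Nat.cast_injective, Nat.card_Icc]
    omega
  simp only [Option.elim] at key
  rw [Finset.sum_congr rfl fun j _ => hcard j] at key
  have hfin := key.trans ((degree_subst g hg P).trans hPd)
  rw [← hZcard]
  exact_mod_cast hfin

theorem smul_nef (q : ℕ) {E : Fin X.ρ → ℤ} (hE : E ∈ X.Nef) : q • E ∈ X.Nef := by
  induction q with
  | zero => rw [zero_smul]; exact X.nef_zero
  | succ q ih => rw [succ_nsmul]; exact X.nef_add _ ih _ hE

theorem sum_nef {k : ℕ} {D : Fin k → Fin X.ρ → ℤ} (hD : ∀ j, D j ∈ X.Nef) (s : Finset (Fin k))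
    (q : Fin k → ℕ) : ∑ j ∈ s, q j • D j ∈ X.Nef := by
  induction s using Finset.induction_on with
  | empty => rw [Finset.sum_empty]; exact X.nef_zero
  | insert j s hj ih => rw [Finset.sum_insert hj]; exact X.nef_add _ (X.smul_nef _ (hD j)) _ ih

/-- The bound for a decomposition of `-K` into nef classes. -/
theorem bound_nef (S : Finset X.Ray) {k : ℕ} (A : Fin X.ρ → ℤ) (D : Fin k → Fin X.ρ → ℤ)
    (a : Fin k → ℕ) (ha : ∀ j, 1 ≤ a j) (hA : A ∈ X.Nef) (hD : ∀ j, D j ∈ X.Nef)
    (hD0 : ∀ j, D j ≠ 0) (horth : ∀ R ∈ S, ∀ j, X.c R (D j) = 0)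
    (hK : X.antiK = A + ∑ j, a j • D j) :
    ∑ R ∈ S, (X.c R X.antiK - 1) + ∑ j, ((a j : ℤ) - 1) ≤ X.n := by
  have hb := X.bound S D (fun j => a j - 1) (fun j => X.deg_nef _ (hD j) (hD0 j)) horth (by
    intro t ht
    let M : ℕ := 1 + ∑ j, a j
    have hM : ∀ j, a j ≤ M * (a j - t j) := fun j => by
      have h1 : 1 ≤ a j - t j := by have := ht j; have := ha j; omega
      have h2 : a j ≤ ∑ j, a j := Finset.single_le_sum (fun _ _ => Nat.zero_le _) (Finset.mem_univ j)
      calc a j ≤ M * 1 := by omega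
        _ ≤ M * (a j - t j) := Nat.mul_le_mul_left _ h1
    refine X.ample_of_smul M _ ?_
    have e : M • (X.antiK - ∑ j, t j • D j) =
        X.antiK + ((M - 1) • A + ∑ j, (M * (a j - t j) - a j) • D j) := by
      have e1 : ∀ j, (M * (a j - t j) - a j) • D j = M • (a j • D j - t j • D j) - a j • D j := fun j => by
        rw [eq_sub_iff_add_eq, ← add_smul, Nat.sub_add_cancel (hM j), mul_smul]
        congr 1
        rw [eq_sub_iff_add_eq, ← add_smul]
        congr 1
        have := ht j; have := ha j; omega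
      rw [Finset.sum_congr rfl fun j _ => e1 j, Finset.sum_sub_distrib, ← Finset.smul_sum,
        Finset.sum_sub_distrib]
      have e2 : X.antiK = A + ∑ j, a j • D j := hK
      have e3 : M • A = A + (M - 1) • A := by
        rw [← succ_nsmul']
        congr 1
        simp only [M]
        omega
      rw [e2]
      rw [show A + ∑ j, a j • D j - ∑ j, t j • D j = A + (∑ j, a j • D j - ∑ j, t j • D j) by abel,
        smul_add, e3]
      abel
    rw [e]
    exact X.ample_add_nef _ X.antiK_ample _ (X.nef_add _ (X.smul_nef _ hA) _ (X.sum_nef hD _ _)))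
  have h1 : ∑ j, ((a j - 1 : ℕ) : ℤ) = ∑ j, ((a j : ℤ) - 1) :=
    Finset.sum_congr rfl fun j _ => by rw [Nat.cast_sub (ha j), Nat.cast_one]
  rw [← h1]
  exact hb

end Fano

/-- **Q1.** Let `X` be a Fano manifold and `S` a set of extremal rays of fibre type; `c R (-K)` is the
degree of `-K` on the primitive class of the ray `R`.
(1) If the classes `D j` have positive degree, are zero on `S`, and `-K - ∑ t j • D j` is ample for
`0 ≤ t j ≤ m j`, then `∑_{R ∈ S} (c R (-K) - 1) + ∑ m j ≤ n`.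
(2) If `-K = A + ∑ a j • D j` with `A` nef, `D j` nef, not zero, zero on `S` and `a j ≥ 1` then
`∑_{R ∈ S} (c R (-K) - 1) + ∑ (a j - 1) ≤ n`.
(3) If `-K = r H` and `H = A + ∑_{j < k} D j` as in (2) then `(|S| + k) (r - 1) ≤ n`; so the
inequality of Mukai holds for `X` if `ρ ≤ |S| + k`. -/
theorem result (X : Fano) (S : Finset X.Ray) (k : ℕ) (D : Fin k → Fin X.ρ → ℤ)
    (hS : ∀ R ∈ S, ∀ j, X.c R (D j) = 0) :
    (∀ m : Fin k → ℕ, (∀ j, 0 < X.deg (D j)) →
      (∀ t : Fin k → ℕ, (∀ j, t j ≤ m j) → X.antiK - ∑ j, t j • D j ∈ X.Ample) →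
      ∑ R ∈ S, (X.c R X.antiK - 1) + ∑ j, (m j : ℤ) ≤ X.n) ∧
    (∀ (A : Fin X.ρ → ℤ) (a : Fin k → ℕ), (∀ j, 1 ≤ a j) → A ∈ X.Nef → (∀ j, D j ∈ X.Nef) →
      (∀ j, D j ≠ 0) → X.antiK = A + ∑ j, a j • D j →
      ∑ R ∈ S, (X.c R X.antiK - 1) + ∑ j, ((a j : ℤ) - 1) ≤ X.n) ∧
    ∀ (r : ℕ) (H A : Fin X.ρ → ℤ), 1 ≤ r → X.antiK = r • H → A ∈ X.Nef → (∀ j, D j ∈ X.Nef) →
      (∀ j, D j ≠ 0) → H = A + ∑ j, D j →
      (S.card + k) * (r - 1) ≤ X.n ∧ (X.ρ ≤ S.card + k → X.ρ * (r - 1) ≤ X.n) := by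
  refine ⟨fun m hdeg hamp => X.bound S D m hdeg hS hamp,
    fun A a ha hA hD hD0 hK => X.bound_nef S A D a ha hA hD hD0 hS hK,
    fun r H A hr hK hA hD hD0 hH => ?_⟩
  have hb := X.bound_nef S (r • A) D (fun _ => r) (fun _ => hr) (X.smul_nef r hA) hD hD0 hS (by
    rw [hK, hH, smul_add, Finset.smul_sum])
  have h1 : ∀ R ∈ S, ((r - 1 : ℕ) : ℤ) ≤ X.c R X.antiK - 1 := by
    intro R _
    have h2 : X.c R X.antiK = r * X.c R H := by rw [hK, map_nsmul, nsmul_eq_mul]
    have h3 := X.c_pos R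
    have h4 : 0 < X.c R H := by
      rw [h2] at h3
      exact (mul_pos_iff_of_pos_left (by exact_mod_cast hr)).1 h3
    have h5 : (r : ℤ) ≤ r * X.c R H := le_mul_of_one_le_right (by positivity) h4
    rw [h2, Nat.cast_sub hr, Nat.cast_one]
    linarith
  have h6 := Finset.sum_le_sum h1
  rw [Finset.sum_const, nsmul_eq_mul] at h6
  rw [Finset.sum_const, Finset.card_univ, Fintype.card_fin, nsmul_eq_mul] at hb
  have h7 : ((S.card : ℤ) + k) * ((r - 1 : ℕ) : ℤ) ≤ X.n := by
    rw [add_mul]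
    rw [Nat.cast_sub hr, Nat.cast_one] at h6 ⊢
    linarith
  have h8 : (S.card + k) * (r - 1) ≤ X.n := by exact_mod_cast h7
  exact ⟨h8, fun h => (Nat.mul_le_mul_right _ h).trans h8⟩

end Pool.Agent.Results.MP_7dbbd8_ag.HilbertPolynomial
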