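import Mathlib

set_option autoImplicit false

open Finset

namespace Pool.Agent.Results.MP_7dbbd8_ag.ToricIntersections

/-- Pairing of a character `u` with a lattice vector `v`. -/
def pair {m : ℕ} (u v : Fin m → ℤ) : ℤ := ∑ t, u t * v t

/-- The real vector `x` lies in the cone spanned by the `v i`, `i ∈ σ`. -/
def InCone {m s : ℕ} (v : Fin s → Fin m → ℤ) (σ : Finset (Fin s)) (x : Fin m → ℝ) : Prop :=
  ∃ c : Fin s → ℝ, (∀ i, 0 ≤ c i) ∧ (∀ i, i ∉ σ → c i = 0) ∧ ∀ t, x t = ∑ i, c i * (v i t : ℝ)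

/-- `v` lists the ray generators and `C` the maximal cones of a smooth complete fan in `ℤ^m`:
every maximal cone is spanned by a basis of `ℤ^m`, two cones meet in the cone over the common
generators, the cones cover `ℝ^m`, every generator is used. -/
structure SmoothCompleteFan {m s : ℕ} (v : Fin s → Fin m → ℤ) (C : Finset (Finset (Fin s))) :
    Prop where
  card : ∀ σ ∈ C, σ.card = m
  basis : ∀ σ ∈ C, ∀ x : Fin m → ℤ,
    ∃! c : Fin s → ℤ, (∀ i, i ∉ σ → c i = 0) ∧ ∀ t, x t = ∑ i, c i * v i t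
  meet : ∀ σ ∈ C, ∀ τ ∈ C, ∀ x, InCone v σ x → InCone v τ x → InCone v (σ ∩ τ) x
  cover : ∀ x, ∃ σ ∈ C, InCone v σ x
  ray : ∀ i, ∃ σ ∈ C, i ∈ σ

/-- The torus invariant divisor `Σ D i D_i` is nef: at every fixed point it is equivalent to an
effective invariant divisor not passing through that point. -/
def Nef {m s : ℕ} (v : Fin s → Fin m → ℤ) (C : Finset (Finset (Fin s))) (D : Fin s → ℤ) : Prop :=
  ∀ σ ∈ C, ∃ u, (∀ i ∈ σ, D i + pair u (v i) = 0) ∧ ∀ i, 0 ≤ D i + pair u (v i)

/-- Linear equivalence of torus invariant divisors. -/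
def LinEquiv {m s : ℕ} (v : Fin s → Fin m → ℤ) (D E : Fin s → ℤ) : Prop :=
  ∃ u, ∀ i, D i - E i = pair u (v i)

/-- `D` has degree at least `d` on every torus invariant curve. The curve of the wall between the
maximal cones `σ` and `τ`, `σ \ {i} ⊆ τ`, `i ∉ τ`: the divisor equivalent to `D` which avoids
the fixed point of `τ` meets it only in the fixed point of `σ`, with multiplicity the coefficient
of `D_i`. -/
def CurveDegreesGe {m s : ℕ} (v : Fin s → Fin m → ℤ) (C : Finset (Finset (Fin s)))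
    (D : Fin s → ℤ) (d : ℤ) : Prop :=
  ∀ σ ∈ C, ∀ τ ∈ C, ∀ i ∈ σ, i ∉ τ → σ.erase i ⊆ τ →
    ∀ u, (∀ l ∈ τ, D l + pair u (v l) = 0) → d ≤ D i + pair u (v i)

section aux

variable {m s : ℕ} {v : Fin s → Fin m → ℤ} {C : Finset (Finset (Fin s))}

theorem pair_add (u u' x : Fin m → ℤ) : pair (u + u') x = pair u x + pair u' x := by
  simp [pair, add_mul, sum_add_distrib]

theorem pair_sub (u u' x : Fin m → ℤ) : pair (u - u') x = pair u x - pair u' x := by
  simp [pair, sub_mul, sum_sub_distrib]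

theorem pair_neg (u x : Fin m → ℤ) : pair (-u) x = -pair u x := by
  simp [pair]

theorem pair_sum_left {ι : Type*} (S : Finset ι) (u : ι → Fin m → ℤ) (x : Fin m → ℤ) :
    pair (∑ j ∈ S, u j) x = ∑ j ∈ S, pair (u j) x := by
  simp only [pair, Finset.sum_apply, Finset.sum_mul]
  rw [Finset.sum_comm]

/-- pairing with an integral combination -/
theorem pair_comb (u : Fin m → ℤ) (c : Fin s → ℤ) (x : Fin m → ℤ)
    (hx : ∀ t, x t = ∑ i, c i * v i t) : pair u x = ∑ i, c i * pair u (v i) := by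
  simp only [pair, hx, Finset.mul_sum]
  rw [Finset.sum_comm]
  refine Finset.sum_congr rfl fun i _ => Finset.sum_congr rfl fun t _ => by ring

/-- pairing with a real combination -/
theorem pair_real (u : Fin m → ℤ) (c : Fin s → ℝ) (x : Fin m → ℝ)
    (hx : ∀ t, x t = ∑ i, c i * (v i t : ℝ)) :
    ∑ t, (u t : ℝ) * x t = ∑ i, c i * (pair u (v i) : ℝ) := by
  simp only [pair, hx, Finset.mul_sum]
  rw [Finset.sum_comm]
  refine Finset.sum_congr rfl fun i _ => ?_
  push_cast
  rw [Finset.mul_sum]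
  refine Finset.sum_congr rfl fun t _ => by ring

/-- dual vectors -/
theorem exists_dual (hF : SmoothCompleteFan v C) {σ : Finset (Fin s)} (hσ : σ ∈ C)
    (i : Fin s) (hi : i ∈ σ) :
    ∃ w : Fin m → ℤ, pair w (v i) = 1 ∧ ∀ l ∈ σ, l ≠ i → pair w (v l) = 0 := by
  classical
  choose b hb hbu using fun t : Fin m => hF.basis σ hσ (Pi.single t 1)
  -- coefficient of e_t at i
  have key : ∀ l ∈ σ, (fun j => ∑ t, v l t * b t j) = Pi.single l 1 := by
    intro l hl
    refine (hF.basis σ hσ (v l)).unique ⟨?_, ?_⟩ ⟨?_, ?_⟩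
    · intro j hj
      refine Finset.sum_eq_zero fun t _ => ?_
      rw [(hb t).1 j hj, mul_zero]
    · intro t
      have h1 : ∀ t', (Pi.single t' (1:ℤ) : Fin m → ℤ) t = ∑ j, b t' j * v j t :=
        fun t' => (hb t').2 t
      calc v l t = ∑ t', v l t' * (Pi.single t' (1:ℤ) : Fin m → ℤ) t := by
            simp [Pi.single_apply]
        _ = ∑ t', v l t' * ∑ j, b t' j * v j t := by simp_rw [h1]
        _ = ∑ j, (∑ t', v l t' * b t' j) * v j t := by
            simp only [Finset.mul_sum, Finset.sum_mul]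
            rw [Finset.sum_comm]
            refine Finset.sum_congr rfl fun j _ => Finset.sum_congr rfl fun t' _ => by ring
    · intro j hj
      have : j ≠ l := fun h => hj (h ▸ hl)
      simp [this]
    · intro t
      simp [Pi.single_apply]
  refine ⟨fun t => b t i, ?_, ?_⟩
  · have := congrFun (key i hi) i
    simp only [Pi.single_eq_same] at this
    simpa [pair, mul_comm] using this
  · intro l hl hne
    have := congrFun (key l hl) i
    rw [Pi.single_apply, if_neg (Ne.symm hne)] at this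
    simpa [pair, mul_comm] using this

/-- a coefficient is read off by the dual vector -/
theorem coeff_eq {σ : Finset (Fin s)} {i : Fin s} {w : Fin m → ℤ}
    (hw : pair w (v i) = 1) (hw' : ∀ l ∈ σ, l ≠ i → pair w (v l) = 0)
    {c : Fin s → ℝ} (hc : ∀ l, l ∉ σ → c l = 0) {x : Fin m → ℝ}
    (hx : ∀ t, x t = ∑ i, c i * (v i t : ℝ)) :
    ∑ t, (w t : ℝ) * x t = c i := by
  rw [pair_real w c x hx, Finset.sum_eq_single i]
  · rw [hw]; simp
  · intro l _ hl
    by_cases h : l ∈ σ
    · rw [hw' l h hl]; simp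
    · rw [hc l h]; simp
  · intro h; exact absurd (Finset.mem_univ i) h

/-- the neighbour across a wall -/
theorem exists_neighbour (hF : SmoothCompleteFan v C) {σ : Finset (Fin s)} (hσ : σ ∈ C)
    {i : Fin s} (hi : i ∈ σ) : ∃ τ ∈ C, σ.erase i ⊆ τ ∧ i ∉ τ := by
  classical
  -- the point p in the wall and the points q n beyond it
  set p : Fin m → ℤ := fun t => ∑ l ∈ σ.erase i, v l t with hp
  have hq : ∀ n : ℕ, ∃ τ : {τ // τ ∈ C},
      InCone v τ.1 (fun t => (p t : ℝ) - (1 / ((n : ℝ) + 1)) * (v i t : ℝ)) := by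
    intro n
    obtain ⟨τ, hτ, h⟩ := hF.cover (fun t => (p t : ℝ) - (1 / ((n : ℝ) + 1)) * (v i t : ℝ))
    exact ⟨⟨τ, hτ⟩, h⟩
  choose f hf using hq
  obtain ⟨⟨τ, hτ⟩, hinf⟩ := Finite.exists_infinite_fiber f
  have hinf' : (f ⁻¹' {⟨τ, hτ⟩}).Infinite := Set.infinite_coe_iff.mp hinf
  -- arbitrarily large n
  have hlarge : ∀ N : ℕ, ∃ n, N ≤ n ∧
      InCone v τ (fun t => (p t : ℝ) - (1 / ((n : ℝ) + 1)) * (v i t : ℝ)) := by
    intro N
    obtain ⟨n, hn, hN⟩ := hinf'.exists_gt N
    refine ⟨n, hN.le, ?_⟩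
    have h1 := hf n
    have h2 : f n = ⟨τ, hτ⟩ := hn
    rw [h2] at h1
    exact h1
  -- p lies in the cone of τ
  obtain ⟨c, ⟨hc0, hcx⟩, -⟩ := hF.basis τ hτ p
  have hcnn : ∀ l, 0 ≤ c l := by
    intro l
    by_cases hl : l ∈ τ
    · obtain ⟨w, hw1, hw2⟩ := exists_dual hF hτ l hl
      have hcl : pair w p = c l := by
        rw [pair_comb w c p hcx, Finset.sum_eq_single l]
        · rw [hw1, mul_one]
        · intro j _ hj
          by_cases h : j ∈ τ
          · rw [hw2 j h hj, mul_zero]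
          · rw [hc0 j h, zero_mul]
        · intro h; exact absurd (Finset.mem_univ l) h
      by_contra hneg
      push Not at hneg
      obtain ⟨n, hn, d, hd0, hdτ, hdx⟩ := hlarge (pair w (v i)).natAbs
      have h3 := coeff_eq hw1 hw2 hdτ hdx
      have h4 : ∑ t, (w t : ℝ) * ((p t : ℝ) - (1 / ((n : ℝ) + 1)) * (v i t : ℝ))
          = (pair w p : ℝ) - (1 / ((n : ℝ) + 1)) * (pair w (v i) : ℝ) := by
        simp only [pair]
        push_cast
        rw [Finset.mul_sum, ← Finset.sum_sub_distrib]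
        refine Finset.sum_congr rfl fun t _ => by ring
      rw [h4, hcl] at h3
      have h5 := hd0 l
      rw [← h3] at h5
      have h6 : (c l : ℝ) ≤ -1 := by exact_mod_cast (by omega : c l ≤ -1)
      have h7 : (0:ℝ) < (n : ℝ) + 1 := by positivity
      have h8 : -(pair w (v i) : ℝ) ≤ n := by
        have : -(pair w (v i)) ≤ (n : ℤ) := by omega
        exact_mod_cast this
      have h9 : (1 / ((n : ℝ) + 1)) * (-(pair w (v i) : ℝ)) < 1 := by
        rw [one_div, ← div_eq_inv_mul, div_lt_one h7]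
        linarith
      linarith
    · rw [hc0 l hl]
  have hpτ : InCone v τ (fun t => (p t : ℝ)) := by
    refine ⟨fun l => (c l : ℝ), fun l => by beta_reduce; exact_mod_cast hcnn l,
      fun l hl => by simp [hc0 l hl], fun t => ?_⟩
    have := hcx t
    simp only
    rw [this]
    push_cast
    rfl
  have hpσ : InCone v σ (fun t => (p t : ℝ)) := by
    refine ⟨fun l => if l ∈ σ.erase i then 1 else 0, fun l => ?_, fun l hl => ?_, fun t => ?_⟩
    · beta_reduce
      split_ifs <;> norm_num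
    · beta_reduce
      rw [if_neg]; intro h; exact hl (Finset.mem_of_mem_erase h)
    · simp only [hp, ite_mul, one_mul, zero_mul]
      push_cast
      rw [← Finset.sum_filter]
      refine Finset.sum_congr ?_ fun _ _ => rfl
      ext l; simp
  obtain ⟨d, hd0, hdσ, hdx⟩ := hF.meet σ hσ τ hτ _ hpσ hpτ
  have hsub : σ.erase i ⊆ τ := by
    intro l hl
    obtain ⟨w, hw1, hw2⟩ := exists_dual hF hσ l (Finset.mem_of_mem_erase hl)
    by_contra hlτ
    have e1 : ∑ t, (w t : ℝ) * (p t : ℝ) = d l := by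
      refine coeff_eq hw1 (fun j hj hjl => hw2 j hj hjl) (σ := σ) ?_ hdx
      intro j hj
      exact hdσ j (fun h => hj (Finset.mem_of_mem_inter_left h))
    have e2 : d l = 0 := hdσ l (fun h => hlτ (Finset.mem_of_mem_inter_right h))
    have e3 : pair w p = 1 := by
      have : pair w p = ∑ j ∈ σ.erase i, pair w (v j) := by
        simp only [pair, hp, Finset.mul_sum]
        rw [Finset.sum_comm]
      rw [this, Finset.sum_eq_single l]
      · exact hw1
      · intro j hj hjl
        exact hw2 j (Finset.mem_of_mem_erase hj) hjl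
      · intro h; exact absurd hl h
    have e4 : ∑ t, (w t : ℝ) * (p t : ℝ) = ((pair w p : ℤ) : ℝ) := by
      simp [pair]
    rw [e4, e3, e2] at e1
    norm_num at e1
  refine ⟨τ, hτ, hsub, ?_⟩
  intro hiτ
  have hστ : σ = τ := by
    refine Finset.eq_of_subset_of_card_le ?_ (by rw [hF.card σ hσ, hF.card τ hτ])
    intro l hl
    by_cases h : l = i
    · rw [h]; exact hiτ
    · exact hsub (Finset.mem_erase.mpr ⟨h, hl⟩)
  subst hστ
  obtain ⟨w, hw1, hw2⟩ := exists_dual hF hσ i hi
  obtain ⟨n, -, d', hd0', hdτ', hdx'⟩ := hlarge 0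
  have h3 := coeff_eq hw1 hw2 hdτ' hdx'
  have e3 : pair w p = 0 := by
    have : pair w p = ∑ j ∈ σ.erase i, pair w (v j) := by
      simp only [pair, hp, Finset.mul_sum]
      rw [Finset.sum_comm]
    rw [this]
    refine Finset.sum_eq_zero fun j hj => ?_
    exact hw2 j (Finset.mem_of_mem_erase hj) (Finset.ne_of_mem_erase hj)
  have h4 : ∑ t, (w t : ℝ) * ((p t : ℝ) - (1 / ((n : ℝ) + 1)) * (v i t : ℝ))
      = (pair w p : ℝ) - (1 / ((n : ℝ) + 1)) * (pair w (v i) : ℝ) := by
    simp only [pair]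
    push_cast
    rw [Finset.mul_sum, ← Finset.sum_sub_distrib]
    refine Finset.sum_congr rfl fun t _ => by ring
  rw [h4, e3, hw1] at h3
  have h5 := hd0' i
  rw [← h3] at h5
  have h7 : (0:ℝ) < 1 / ((n : ℝ) + 1) := by positivity
  push_cast at h5
  linarith

/-- a generator outside a maximal cone has a negative coordinate -/
theorem exists_neg (hF : SmoothCompleteFan v C) {σ : Finset (Fin s)} (hσ : σ ∈ C)
    {j : Fin s} (hj : j ∉ σ) {c : Fin s → ℤ} (hc0 : ∀ i, i ∉ σ → c i = 0)
    (hcx : ∀ t, v j t = ∑ i, c i * v i t) : ∃ i ∈ σ, c i < 0 := by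
  classical
  by_contra hcon
  push Not at hcon
  have h1 : InCone v σ (fun t => (v j t : ℝ)) := by
    refine ⟨fun l => (c l : ℝ), fun l => ?_, fun l hl => by simp [hc0 l hl], fun t => ?_⟩
    · beta_reduce
      by_cases h : l ∈ σ
      · exact_mod_cast hcon l h
      · simp [hc0 l h]
    · have := hcx t
      simp only
      rw [this]
      push_cast
      rfl
  obtain ⟨τ, hτ, hjτ⟩ := hF.ray j
  have h2 : InCone v τ (fun t => (v j t : ℝ)) := by
    refine ⟨fun l => if l = j then 1 else 0, fun l => ?_, fun l hl => ?_, fun t => ?_⟩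
    · beta_reduce
      split_ifs <;> norm_num
    · beta_reduce
      rw [if_neg]; intro h; exact hl (h ▸ hjτ)
    · simp
  obtain ⟨d, hd0, hdσ, hdx⟩ := hF.meet σ hσ τ hτ _ h1 h2
  obtain ⟨w, hw1, hw2⟩ := exists_dual hF hτ j hjτ
  have e1 : ∑ t, (w t : ℝ) * (v j t : ℝ) = d j := by
    refine coeff_eq hw1 (fun l hl hlj => hw2 l hl hlj) (σ := τ) ?_ hdx
    intro l hl
    exact hdσ l (fun h => hl (Finset.mem_of_mem_inter_right h))
  have e2 : d j = 0 := hdσ j (fun h => hj (Finset.mem_of_mem_inter_left h))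
  have e4 : ∑ t, (w t : ℝ) * (v j t : ℝ) = ((pair w (v j) : ℤ) : ℝ) := by
    simp [pair]
  rw [e4, hw1, e2] at e1
  norm_num at e1

/-- coefficients outside the cone are at least the minimal degree of a curve -/
theorem coeff_ge (hF : SmoothCompleteFan v C) {A : Fin s → ℤ} (hA : Nef v C A) {d : ℤ}
    (hd : CurveDegreesGe v C A d) {σ : Finset (Fin s)} (hσ : σ ∈ C) {α : Fin m → ℤ}
    (hα : ∀ i ∈ σ, A i + pair α (v i) = 0) {j : Fin s} (hj : j ∉ σ) :
    d ≤ A j + pair α (v j) := by
  classical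
  obtain ⟨c, ⟨hc0, hcx⟩, -⟩ := hF.basis σ hσ (v j)
  obtain ⟨i, hi, hci⟩ := exists_neg hF hσ hj hc0 hcx
  obtain ⟨τ, hτ, hsub, hiτ⟩ := exists_neighbour hF hσ hi
  obtain ⟨β, hβ0, hβ⟩ := hA τ hτ
  have h1 : d ≤ A i + pair β (v i) := hd σ hσ τ hτ i hi hiτ hsub β hβ0
  have h2 : pair (β - α) (v j) = c i * (A i + pair β (v i)) := by
    rw [pair_comb (β - α) c (v j) hcx, Finset.sum_eq_single i]
    · rw [pair_sub]
      have := hα i hi
      have e : pair α (v i) = - A i := by linarith
      rw [e]; ring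
    · intro l _ hl
      by_cases h : l ∈ σ
      · have e1 := hα l h
        have e2 := hβ0 l (hsub (Finset.mem_erase.mpr ⟨hl, h⟩))
        rw [pair_sub]
        have : pair β (v l) - pair α (v l) = 0 := by linarith
        rw [this, mul_zero]
      · rw [hc0 l h, zero_mul]
    · intro h; exact absurd (Finset.mem_univ i) h
  rw [pair_sub] at h2
  have h3 := hβ j
  have h4 := hβ i
  have h5 : A i + pair β (v i) ≤ - (c i * (A i + pair β (v i))) := by nlinarith
  linarith

end aux

/-- Mukai's inequality for complete intersections in smooth complete toric varieties: `v`, `C` a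
smooth complete fan in `ℤ^m` with `s` rays, `A` nef with degree at least `d` on all torus
invariant curves, `L 1, .., L k` nef and not linearly equivalent to `0`,
`-K = A + L 1 + .. + L k`. Then `(s - m) (d - 1) ≤ m - k`. -/
theorem result (m s k : ℕ) (v : Fin s → Fin m → ℤ) (C : Finset (Finset (Fin s)))
    (hF : SmoothCompleteFan v C) (A : Fin s → ℤ) (L : Fin k → Fin s → ℤ) (d : ℤ)
    (hA : Nef v C A) (hd : CurveDegreesGe v C A d)
    (hL : ∀ j, Nef v C (L j)) (hL' : ∀ j, ¬ LinEquiv v (L j) 0)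
    (hK : LinEquiv v 1 (A + ∑ j, L j)) :
    ((s : ℤ) - m) * (d - 1) ≤ m - k := by
  classical
  -- the maximal cone containing the sum of all generators
  obtain ⟨σ, hσ, c, hc0, hcσ, hcx⟩ := hF.cover (fun t => ∑ i, (v i t : ℝ))
  obtain ⟨α, hα0, hα⟩ := hA σ hσ
  choose β hβ0 hβ using fun j => hL j σ hσ
  obtain ⟨u, hu⟩ := hK
  set κ : Fin m → ℤ := α + ∑ j, β j - u with hκ
  have key : ∀ i, 1 + pair κ (v i)
      = (A i + pair α (v i)) + ∑ j, (L j i + pair (β j) (v i)) := by
    intro i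
    have h1 := hu i
    simp only [Pi.one_apply, Pi.add_apply, Finset.sum_apply] at h1
    rw [hκ, pair_sub, pair_add, pair_sum_left, Finset.sum_add_distrib]
    linarith
  have hκσ : ∀ i ∈ σ, pair κ (v i) = -1 := by
    intro i hi
    have h1 := key i
    rw [hα0 i hi, Finset.sum_eq_zero (fun j _ => hβ0 j i hi)] at h1
    linarith
  -- the sum of all values of kappa is not positive
  have hle : (∑ i, pair κ (v i) : ℤ) ≤ 0 := by
    have h1 := pair_real κ c (fun t => ∑ i, (v i t : ℝ)) hcx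
    have h2 : ∑ t, (κ t : ℝ) * ∑ i, (v i t : ℝ) = ((∑ i, pair κ (v i) : ℤ) : ℝ) := by
      simp only [pair, Finset.mul_sum]
      push_cast
      rw [Finset.sum_comm]
    have h3 : ∑ i, c i * (pair κ (v i) : ℝ) ≤ 0 := by
      refine Finset.sum_nonpos fun i _ => ?_
      by_cases h : i ∈ σ
      · rw [hκσ i h]
        have := hc0 i
        push_cast
        linarith
      · rw [hcσ i h, zero_mul]
    have h4 : ((∑ i, pair κ (v i) : ℤ) : ℝ) ≤ 0 := by rw [← h2, h1]; exact h3
    exact_mod_cast h4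
  -- lower bounds
  have hAsum : ((s : ℤ) - m) * d ≤ ∑ i, (A i + pair α (v i)) := by
    have h1 : ∑ i ∈ univ \ σ, d ≤ ∑ i ∈ univ \ σ, (A i + pair α (v i)) := by
      refine Finset.sum_le_sum fun i hi => ?_
      exact coeff_ge hF hA hd hσ hα0 (Finset.mem_sdiff.mp hi).2
    have h2 : ∑ i ∈ univ \ σ, (A i + pair α (v i)) = ∑ i, (A i + pair α (v i)) := by
      refine Finset.sum_subset (Finset.sdiff_subset) fun i _ hi => ?_
      have : i ∈ σ := by
        by_contra h
        exact hi (Finset.mem_sdiff.mpr ⟨Finset.mem_univ i, h⟩)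
      exact hα0 i this
    rw [h2] at h1
    rw [Finset.sum_const, nsmul_eq_mul] at h1
    have h3 : ((univ \ σ : Finset (Fin s)).card : ℤ) = (s : ℤ) - m := by
      rw [Finset.card_sdiff_of_subset (Finset.subset_univ σ), hF.card σ hσ, Finset.card_univ,
        Fintype.card_fin, Nat.cast_sub]
      have := Finset.card_le_univ σ
      rwa [hF.card σ hσ, Fintype.card_fin] at this
    rw [h3] at h1
    exact h1
  have hLsum : ∀ j, 1 ≤ ∑ i, (L j i + pair (β j) (v i)) := by
    intro j
    by_contra hcon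
    push Not at hcon
    have h0 : ∑ i, (L j i + pair (β j) (v i)) = 0 := by
      have : 0 ≤ ∑ i, (L j i + pair (β j) (v i)) := Finset.sum_nonneg fun i _ => hβ j i
      omega
    rw [Finset.sum_eq_zero_iff_of_nonneg (fun i _ => hβ j i)] at h0
    refine hL' j ⟨-(β j), fun i => ?_⟩
    have := h0 i (Finset.mem_univ i)
    rw [pair_neg]
    simp only [Pi.zero_apply, sub_zero]
    linarith
  have hLsum' : (k : ℤ) ≤ ∑ i, ∑ j, (L j i + pair (β j) (v i)) := by
    rw [Finset.sum_comm]
    calc (k : ℤ) = ∑ _j : Fin k, (1 : ℤ) := by simp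
      _ ≤ _ := Finset.sum_le_sum fun j _ => hLsum j
  have htot : (s : ℤ) + ∑ i, pair κ (v i)
      = ∑ i, (A i + pair α (v i)) + ∑ i, ∑ j, (L j i + pair (β j) (v i)) := by
    rw [← Finset.sum_add_distrib]
    rw [← Finset.sum_congr rfl (fun i _ => key i)]
    rw [Finset.sum_add_distrib]
    simp
  have : ((s : ℤ) - m) * (d - 1) = ((s : ℤ) - m) * d - ((s : ℤ) - m) := by ring
  linarith

end Pool.Agent.Results.MP_7dbbd8_ag.ToricIntersections
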